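import Pool.Agent.TH658.Sos.ImDefs

/-!
# Individualization-refinement with the invertible-map test as refinement

Graphs are given by their adjacency relations `A : V → V → Prop` (so the definitions also make sense
for directed graphs, for example for tournaments).
-/

set_option autoImplicit false

namespace Pool.Agent.Y598.IM

open Pool.Agent.TH658.Sos (Similar)

/-- A graph with a list of individualized vertices and a `k`-tuple of vertices. -/
abbrev Sit (V : Type) (k : ℕ) : Type := ((V → V → Prop) × List V) × (Fin k → V)

/-- `R` is a stable colouring for the `k`-dimensional invertible-map test over all fields in which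
`p` is not zero: `R` is an equivalence relation (its classes are the colours), tuples of the same
colour have the same equality pattern, the same adjacencies and the same pattern of individualized
entries, and for all fields `K` in which `p` is not zero and all choices `ι` of `m + m` positions one
invertible matrix transforms, for every colour `c` simultaneously, the matrix of the colour `c` for
the one tuple into the matrix of the colour `c` for the other tuple. (The matrix of the colour `c`
for a tuple is indexed by pairs `(x, y)` of `m`-tuples; its entry is `1` if the tuple with `x` and
`y` substituted at the positions `ι` has colour `c`, and `0` otherwise.) -/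
structure Stable {V : Type} [Fintype V] (p k : ℕ) (R : Sit V k → Sit V k → Prop) : Prop where
  equiv : Equivalence R
  eq : ∀ a b, R a b → ∀ i j, a.2 i = a.2 j ↔ b.2 i = b.2 j
  adj : ∀ a b, R a b → ∀ i j, a.1.1 (a.2 i) (a.2 j) ↔ b.1.1 (b.2 i) (b.2 j)
  ind : ∀ a b, R a b → ∀ i, (a.1.2.map fun w => w = a.2 i) = b.1.2.map fun w => w = b.2 i
  similar : ∀ a b, R a b → ∀ (K : Type) [Field K], (p : K) ≠ 0 →
    ∀ (m : ℕ) (ι : Fin m ⊕ Fin m ↪ Fin k), Similar K R (Prod.mk a.1) (Prod.mk b.1) ι a.2 b.2

/-- The invertible-map test gives the same colour: the tuples have the same colour in some
stable colouring. -/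
def Alike {V : Type} [Fintype V] (p k : ℕ) (a b : Sit V k) : Prop := ∃ R, Stable p k R ∧ R a b

/-- The invertible-map test does not distinguish the graph `A` with individualized list `v` from the
graph `A'` with individualized list `v'`. -/
def Indist {V : Type} [Fintype V] (p k : ℕ) (A : V → V → Prop) (v : List V)
    (A' : V → V → Prop) (v' : List V) : Prop :=
  ∃ ψ : (Fin k → V) ≃ (Fin k → V), ∀ S, Alike p k ((A, v), S) ((A', v'), ψ S)

/-- The cell of the vertex `u` in the colouring of the vertices of `(A, v)` found by the
invertible-map test. -/
def cell {V : Type} [Fintype V] (p k : ℕ) (A : V → V → Prop) (v : List V) (u : V) : Set V :=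
  {u' | Alike p k ((A, v), fun _ => u') ((A, v), fun _ => u)}

/-- A cell selector based on the invertible-map test: for a graph with individualized vertices it
selects a cell with at least two vertices, if there is one (and `∅` otherwise), and it selects
cells of the same colour in situations which the test does not distinguish. -/
structure IsSelector {V : Type} [Fintype V] (p k : ℕ)
    (sel : (V → V → Prop) → List V → Set V) : Prop where
  cell : ∀ A v, ∀ u ∈ sel A v, sel A v = cell p k A v u ∧ (cell p k A v u).Nontrivial
  discrete : ∀ A v, sel A v = ∅ → ∀ u, ¬ (IM.cell p k A v u).Nontrivial
  invariant : ∀ A v A' v', Indist p k A v A' v' → ∀ u ∈ sel A v, ∀ u' ∈ sel A' v',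
    Alike p k ((A, v), fun _ => u) ((A', v'), fun _ => u')

/-- The nodes of the search tree of `A`: lists of vertices (the last individualized vertex comes
first), each vertex being taken from the cell selected after the individualization of the
previous ones. -/
inductive IsNode {V : Type} (sel : (V → V → Prop) → List V → Set V) (A : V → V → Prop) :
    List V → Prop
  | nil : IsNode sel A []
  | cons (u : V) (v : List V) : IsNode sel A v → u ∈ sel A v → IsNode sel A (u :: v)

/-- A leaf of the search tree: a node with a discrete colouring. -/
def IsLeaf {V : Type} (sel : (V → V → Prop) → List V → Set V) (A : V → V → Prop)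
    (v : List V) : Prop :=
  IsNode sel A v ∧ sel A v = ∅

/-- The node `v'` of the tree of `A'` looks like the node `v` of the tree of `A`: both have the same
depth, and neither they nor their ancestors at the same depth are distinguished by the
invertible-map test. -/
def LooksLike {V : Type} [Fintype V] (p k : ℕ) (A : V → V → Prop) (v : List V)
    (A' : V → V → Prop) (v' : List V) : Prop :=
  v.length = v'.length ∧ ∀ j, Indist p k A (v.drop j) A' (v'.drop j)

/-- `E` is the set of the nodes visited by an individualization-refinement run on the graph `A'`
which is guided by the leaf `v` of the tree of `A` and prunes the tree of `A'` with the invariants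
of the invertible-map test and with automorphisms: up to automorphisms of `A'`, the set `E`
contains all nodes of the tree of `A'` which look like `v` or like an ancestor of `v`. -/
def Explores {V : Type} [Fintype V] (p k : ℕ) (sel : (V → V → Prop) → List V → Set V)
    (A : V → V → Prop) (v : List V) (A' : V → V → Prop) (E : Finset (List V)) : Prop :=
  ∀ (j : ℕ) (w : List V), IsNode sel A' w → LooksLike p k A (v.drop j) A' w →
    ∃ α : V ≃ V, (∀ x y, A' (α x) (α y) ↔ A' x y) ∧ w.map α ∈ E

end Pool.Agent.Y598.IM
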