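import Pool.Agent.Y598.IM.Defs

/-!
# The coarsest stable colouring
-/

set_option autoImplicit false
set_option linter.unusedSectionVars false

namespace Pool.Agent.Y598.IM

open Pool.Agent.TH658.Sos Matrix

section

variable {V T : Type} [Fintype V] {K : Type} [Field K] {k m : ℕ}

theorem sim_refl (R : T → T → Prop) (i : (Fin k → V) → T) (ι : Fin m ⊕ Fin m ↪ Fin k)
    (u : Fin k → V) : Similar K R i i ι u u := by
  classical
  refine ⟨1, 1, ?_, ?_, fun c => ?_⟩
  · exact Matrix.one_mul 1
  · exact Matrix.one_mul 1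
  · rw [Matrix.one_mul, Matrix.mul_one]

theorem sim_symm {R : T → T → Prop} {i j : (Fin k → V) → T} {ι : Fin m ⊕ Fin m ↪ Fin k}
    {u v : Fin k → V} (h : Similar K R i j ι u v) : Similar K R j i ι v u := by
  classical
  obtain ⟨P, Q, h1, h2, h3⟩ := h
  refine ⟨Q, P, h2, h1, fun c => ?_⟩
  have h4 := h3 c
  calc classMatrix (AlgebraicClosure K) R j ι v c * Q
      = Q * P * (classMatrix (AlgebraicClosure K) R j ι v c * Q) := by rw [h2, Matrix.one_mul]
    _ = Q * (P * classMatrix (AlgebraicClosure K) R j ι v c) * Q := by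
        simp only [Matrix.mul_assoc]
    _ = Q * (classMatrix (AlgebraicClosure K) R i ι u c * P) * Q := by rw [h4]
    _ = Q * classMatrix (AlgebraicClosure K) R i ι u c * (P * Q) := by
        simp only [Matrix.mul_assoc]
    _ = _ := by rw [h1, Matrix.mul_one]

theorem sim_trans {R : T → T → Prop} {i j l : (Fin k → V) → T} {ι : Fin m ⊕ Fin m ↪ Fin k}
    {u v w : Fin k → V} (h : Similar K R i j ι u v) (h' : Similar K R j l ι v w) :
    Similar K R i l ι u w := by
  classical
  obtain ⟨P, Q, h1, h2, h3⟩ := h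
  obtain ⟨P', Q', h1', h2', h3'⟩ := h'
  refine ⟨P * P', Q' * Q, ?_, ?_, fun c => ?_⟩
  · calc P * P' * (Q' * Q) = P * (P' * Q') * Q := by simp only [Matrix.mul_assoc]
      _ = 1 := by rw [h1', Matrix.mul_one, h1]
  · calc Q' * Q * (P * P') = Q' * (Q * P) * P' := by simp only [Matrix.mul_assoc]
      _ = 1 := by rw [h2, Matrix.mul_one, h2']
  · rw [← Matrix.mul_assoc, h3 c, Matrix.mul_assoc, h3' c, ← Matrix.mul_assoc]

open Classical in
theorem sim_coarse {R J : T → T → Prop} (hR : Equivalence R) (hJ : Equivalence J)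
    (hRJ : ∀ a b, R a b → J a b) {i j : (Fin k → V) → T} {ι : Fin m ⊕ Fin m ↪ Fin k}
    {u v : Fin k → V} (h : Similar K R i j ι u v) : Similar K J i j ι u v := by
  obtain ⟨P, Q, h1, h2, h3⟩ := h
  refine ⟨P, Q, h1, h2, fun c => ?_⟩
  let s : Setoid T := ⟨R, hR⟩
  let cls : Finset (Quotient s) :=
    (Finset.univ : Finset (Fin k → V)).image (fun w => Quotient.mk s (i w)) ∪
      (Finset.univ : Finset (Fin k → V)).image (fun w => Quotient.mk s (j w))
  let rel := cls.filter fun q => J c q.out
  have key : ∀ (l : (Fin k → V) → T) (w : Fin k → V), (∀ x, Quotient.mk s (l x) ∈ cls) →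
      classMatrix (AlgebraicClosure K) J l ι w c =
        ∑ q ∈ rel, classMatrix (AlgebraicClosure K) R l ι w q.out := by
    intro l w hl
    ext x y
    rw [Matrix.sum_apply]
    simp only [classMatrix]
    have h4 : ∀ q : Quotient s, R q.out (l (subst ι w x y)) ↔ q = Quotient.mk s (l (subst ι w x y)) := by
      intro q
      constructor
      · intro h5
        rw [← Quotient.out_eq q]
        exact Quotient.sound (s := s) h5
      · intro h5
        rw [h5]
        exact Quotient.mk_out (s := s) _
    by_cases h5 : J c (l (subst ι w x y))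
    · rw [if_pos h5, Finset.sum_eq_single (Quotient.mk s (l (subst ι w x y)))]
      · rw [if_pos ((h4 _).2 rfl)]
      · intro q _ hq
        rw [if_neg fun h6 => hq ((h4 q).1 h6)]
      · intro h6
        exfalso
        apply h6
        refine Finset.mem_filter.2 ⟨hl _, hJ.trans h5 (hJ.symm (hRJ _ _ ?_))⟩
        exact Quotient.mk_out (s := s) _
    · rw [if_neg h5]
      symm
      refine Finset.sum_eq_zero fun q hq => ?_
      rw [if_neg]
      intro h6
      exact h5 (hJ.trans (Finset.mem_filter.1 hq).2 (hRJ _ _ h6))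
  rw [key i u fun x => Finset.mem_union_left _ (Finset.mem_image_of_mem _ (Finset.mem_univ x)),
    key j v fun x => Finset.mem_union_right _ (Finset.mem_image_of_mem _ (Finset.mem_univ x)),
    Matrix.sum_mul, Matrix.mul_sum]
  exact Finset.sum_congr rfl fun q _ => h3 _

end

section

variable {V : Type} [Fintype V] {p k : ℕ}

theorem stable_eq : Stable p k (fun a b : Sit V k => a = b) where
  equiv := ⟨fun _ => rfl, fun h => h.symm, fun h h' => h.trans h'⟩
  eq := by
    rintro a b rfl i j
    exact Iff.rfl
  adj := by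
    rintro a b rfl i j
    exact Iff.rfl
  ind := by
    rintro a b rfl i
    rfl
  similar := by
    rintro a b rfl K _ _ m ι
    exact sim_refl _ _ _ _

/-- The relation generated by all stable colourings is a stable colouring. -/
theorem stable_join : Stable p k (Relation.EqvGen (Alike (V := V) p k)) where
  equiv := Relation.EqvGen.is_equivalence _
  eq := by
    intro a b h
    induction h with
    | rel a b h =>
      obtain ⟨R, hR, hab⟩ := h
      exact hR.eq a b hab
    | refl a => exact fun i j => Iff.rfl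
    | symm a b _ ih => exact fun i j => (ih i j).symm
    | trans a b c _ _ ih ih' => exact fun i j => (ih i j).trans (ih' i j)
  adj := by
    intro a b h
    induction h with
    | rel a b h =>
      obtain ⟨R, hR, hab⟩ := h
      exact hR.adj a b hab
    | refl a => exact fun i j => Iff.rfl
    | symm a b _ ih => exact fun i j => (ih i j).symm
    | trans a b c _ _ ih ih' => exact fun i j => (ih i j).trans (ih' i j)
  ind := by
    intro a b h
    induction h with
    | rel a b h =>
      obtain ⟨R, hR, hab⟩ := h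
      exact hR.ind a b hab
    | refl a => exact fun i => rfl
    | symm a b _ ih => exact fun i => (ih i).symm
    | trans a b c _ _ ih ih' => exact fun i => (ih i).trans (ih' i)
  similar := by
    intro a b h K _ hp m ι
    induction h with
    | rel a b h =>
      obtain ⟨R, hR, hab⟩ := h
      refine sim_coarse hR.equiv (Relation.EqvGen.is_equivalence _) ?_
        (hR.similar a b hab K hp m ι)
      intro c d hcd
      exact Relation.EqvGen.rel _ _ ⟨R, hR, hcd⟩
    | refl a => exact sim_refl _ _ _ _
    | symm a b _ ih => exact sim_symm ih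
    | trans a b c _ _ ih ih' => exact sim_trans ih ih'

theorem alike_iff {a b : Sit V k} : Alike p k a b ↔ Relation.EqvGen (Alike (V := V) p k) a b :=
  ⟨fun h => Relation.EqvGen.rel _ _ h, fun h => ⟨_, stable_join, h⟩⟩

theorem Alike.refl (a : Sit V k) : Alike p k a a := ⟨_, stable_eq, rfl⟩

theorem Alike.symm {a b : Sit V k} (h : Alike p k a b) : Alike p k b a :=
  alike_iff.2 (Relation.EqvGen.symm _ _ (Relation.EqvGen.rel _ _ h))

theorem Alike.trans {a b c : Sit V k} (h : Alike p k a b) (h' : Alike p k b c) : Alike p k a c :=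
  alike_iff.2 (Relation.EqvGen.trans _ _ _ (Relation.EqvGen.rel _ _ h)
    (Relation.EqvGen.rel _ _ h'))

theorem Alike.eq {a b : Sit V k} (h : Alike p k a b) (i j : Fin k) :
    a.2 i = a.2 j ↔ b.2 i = b.2 j := by
  obtain ⟨R, hR, h⟩ := h
  exact hR.eq a b h i j

theorem Alike.ind {a b : Sit V k} (h : Alike p k a b) (i : Fin k) :
    (a.1.2.map fun w => w = a.2 i) = b.1.2.map fun w => w = b.2 i := by
  obtain ⟨R, hR, h⟩ := h
  exact hR.ind a b h i

theorem Indist.symm {A B : V → V → Prop} {v w : List V} (h : Indist p k A v B w) :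
    Indist p k B w A v := by
  obtain ⟨ψ, hψ⟩ := h
  refine ⟨ψ.symm, fun S => ?_⟩
  have := hψ (ψ.symm S)
  rw [Equiv.apply_symm_apply] at this
  exact this.symm

theorem Indist.trans {A B C : V → V → Prop} {v w z : List V} (h : Indist p k A v B w)
    (h' : Indist p k B w C z) : Indist p k A v C z := by
  obtain ⟨ψ, hψ⟩ := h
  obtain ⟨ψ', hψ'⟩ := h'
  exact ⟨ψ.trans ψ', fun S => (hψ S).trans (hψ' (ψ S))⟩

theorem Indist.refl (A : V → V → Prop) (v : List V) : Indist p k A v A v :=
  ⟨Equiv.refl _, fun _ => Alike.refl _⟩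

/-- Situations which are not distinguished have the same vertex colours. -/
theorem Indist.vertices (hk : 1 ≤ k) {G H : V → V → Prop} {v w : List V}
    (h : Indist p k G v H w) : ∃ B : V → V, Function.Injective B ∧
      ∀ u, Alike p k ((G, v), fun _ => u) ((H, w), fun _ => B u) := by
  obtain ⟨ψ, hψ⟩ := h
  have hconst : ∀ u, ψ (fun _ => u) = fun _ => ψ (fun _ => u) ⟨0, hk⟩ := by
    intro u
    funext i
    exact ((hψ (fun _ => u)).eq i ⟨0, hk⟩).1 rfl
  refine ⟨fun u => ψ (fun _ => u) ⟨0, hk⟩, ?_, ?_⟩
  · intro u u' huu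
    have h1 : ψ (fun _ => u) = ψ (fun _ => u') := by
      rw [hconst u, hconst u']
      funext i
      exact huu
    exact congrFun (ψ.injective h1) ⟨0, hk⟩
  · intro u
    have h1 := hψ (fun _ => u)
    rw [hconst u] at h1
    exact h1

theorem nontrivial_map {G H : V → V → Prop} {v w : List V} {B : V → V}
    (hB : Function.Injective B)
    (hiwl : ∀ u, Alike p k ((G, v), fun _ => u) ((H, w), fun _ => B u)) {u u' : V}
    (hu : Alike p k ((G, v), fun _ => u) ((H, w), fun _ => u'))
    (hnt : (cell p k G v u).Nontrivial) : (cell p k H w u').Nontrivial := by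
  obtain ⟨x, hx, y, hy, hxy⟩ := hnt
  refine ⟨B x, ?_, B y, ?_, fun h => hxy (hB h)⟩
  · exact ((hiwl x).symm.trans hx).trans hu
  · exact ((hiwl y).symm.trans hy).trans hu

/-- Cell selectors exist. -/
theorem exists_isSelector (hk : 1 ≤ k) : ∃ sel : (V → V → Prop) → List V → Set V,
    IsSelector p k sel := by
  classical
  let P := (V → V → Prop) × List V
  let st : Setoid P :=
    { r := fun x y => Indist p k x.1 x.2 y.1 y.2
      iseqv := ⟨fun x => Indist.refl _ _, fun h => h.symm, fun h h' => h.trans h'⟩ }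
  let rep : P → P := fun x => (Quotient.mk st x).out
  have hrep : ∀ x, Indist p k x.1 x.2 (rep x).1 (rep x).2 := fun x =>
    (Quotient.mk_out (s := st) x).symm
  have hrepeq : ∀ x y : P, Indist p k x.1 x.2 y.1 y.2 → rep x = rep y := by
    intro x y h
    have : Quotient.mk st x = Quotient.mk st y := Quotient.sound h
    show (Quotient.mk st x).out = (Quotient.mk st y).out
    rw [this]
  have hu0 : ∀ x : P, ∃ u : Option V, (∀ z, u = some z → (cell p k x.1 x.2 z).Nontrivial) ∧
      (u = none → ∀ z, ¬ (cell p k x.1 x.2 z).Nontrivial) := by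
    intro x
    by_cases h : ∃ z, (cell p k x.1 x.2 z).Nontrivial
    · obtain ⟨z, hz⟩ := h
      refine ⟨some z, fun z' hz' => ?_, fun h' => absurd h' (by simp)⟩
      rw [← Option.some_injective _ hz']
      exact hz
    · refine ⟨none, fun z hz => absurd hz (by simp), fun _ z hz => h ⟨z, hz⟩⟩
  choose u0 hu1 hu2 using hu0
  let sel : (V → V → Prop) → List V → Set V := fun G v =>
    {u | ∃ z, u0 (rep (G, v)) = some z ∧
      Alike p k ((G, v), fun _ => u) (((rep (G, v)).1, (rep (G, v)).2), fun _ => z)}
  refine ⟨sel, ?_, ?_, ?_⟩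
  · rintro G v u ⟨z, hz, hcol⟩
    constructor
    · ext u'
      constructor
      · rintro ⟨z', hz', hcol'⟩
        rw [hz] at hz'
        rw [← Option.some_injective _ hz'] at hcol'
        exact hcol'.trans hcol.symm
      · intro hu'
        exact ⟨z, hz, Alike.trans hu' hcol⟩
    · obtain ⟨B, hB, hBi⟩ := (hrep (G, v)).symm.vertices hk
      exact nontrivial_map hB hBi hcol.symm (hu1 _ z hz)
  · intro G v hsel u hnt
    obtain ⟨B, hB, hBi⟩ := (hrep (G, v)).vertices hk
    have h1 := nontrivial_map hB hBi (hBi u) hnt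
    cases hz : u0 (rep (G, v)) with
    | none => exact hu2 _ hz _ h1
    | some z =>
      obtain ⟨B', hB', hBi'⟩ := (hrep (G, v)).symm.vertices hk
      have : B' z ∈ sel G v := ⟨z, hz, (hBi' z).symm⟩
      rw [hsel] at this
      exact this
  · rintro G v H w hind u ⟨z, hz, hcol⟩ u' ⟨z', hz', hcol'⟩
    have h1 : rep (G, v) = rep (H, w) := hrepeq _ _ hind
    rw [← h1, hz] at hz'
    rw [← h1, ← Option.some_injective _ hz'] at hcol'
    exact hcol.trans hcol'.symm

theorem notMem_of_sel (hk : 1 ≤ k) {sel : (V → V → Prop) → List V → Set V}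
    (hsel : IsSelector p k sel) {G : V → V → Prop} {v : List V} {u : V} (hu : u ∈ sel G v) :
    u ∉ v := by
  intro huv
  obtain ⟨x, hx, y, hy, hxy⟩ := (hsel.cell G v u hu).2
  have key : ∀ x ∈ cell p k G v u, x = u := by
    intro x hx
    have h3 := Alike.ind hx ⟨0, hk⟩
    have h4 := List.map_inj_left.1 h3 u huv
    exact (h4 ▸ rfl : u = x).symm
  exact hxy ((key x hx).trans (key y hy).symm)

theorem nodup_of_node (hk : 1 ≤ k) {sel : (V → V → Prop) → List V → Set V}
    (hsel : IsSelector p k sel) {G : V → V → Prop} {v : List V} (hv : IsNode sel G v) :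
    v.Nodup := by
  induction hv with
  | nil => exact List.nodup_nil
  | cons u v _ hu ih => exact List.nodup_cons.2 ⟨notMem_of_sel hk hsel hu, ih⟩

/-- Every search tree has a leaf. -/
theorem exists_leaf (hk : 1 ≤ k) {sel : (V → V → Prop) → List V → Set V}
    (hsel : IsSelector p k sel) (G : V → V → Prop) : ∃ v, IsLeaf sel G v := by
  classical
  by_contra hcon
  have h1 : ∀ m : ℕ, ∃ v : List V, IsNode sel G v ∧ v.length = m := by
    intro m
    induction m with
    | zero => exact ⟨[], IsNode.nil, rfl⟩
    | succ m ih =>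
      obtain ⟨v, hv, hm⟩ := ih
      have hne : (sel G v).Nonempty := by
        rw [Set.nonempty_iff_ne_empty]
        intro h0
        exact hcon ⟨v, hv, h0⟩
      obtain ⟨u, hu⟩ := hne
      refine ⟨u :: v, IsNode.cons u v hv hu, ?_⟩
      rw [List.length_cons, hm]
  obtain ⟨v, hv, hm⟩ := h1 (Fintype.card V + 1)
  have h2 := (nodup_of_node hk hsel hv).length_le_card
  omega

end

end Pool.Agent.Y598.IM
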