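import Pool.Agent.TH658.Sos.Im
import Pool.Agent.Y598.IM.Join

/-!
# Families of graphs with local isomorphisms
-/

set_option autoImplicit false
set_option linter.unusedSectionVars false

namespace Pool.Agent.Y598.IM

open Pool.Agent.TH658.Sos Matrix Finset
open Pool.Agent.TH658.Sos.Act (lvT lvT_congr lv_le_lvT comp_subst lvT_subst)

/-- A family of graphs on one vertex set with an action of an abelian group. An element of
`Sol b b' W` is an isomorphism of the graph with index `b` to the graph with index `b'` as far as it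
is seen at the level `W`. -/
structure Fam (X L V B : Type) [AddCommGroup X] [SemilatticeSup L] [OrderBot L] where
  N : L → AddSubgroup X
  D : L → AddSubgroup X
  Sol : B → B → L → Set X
  size : L → ℕ
  K : ℕ
  N_anti : ∀ W W', W ≤ W' → N W' ≤ N W
  N_sup : ∀ W W', N W ⊓ N W' ≤ N (W ⊔ W')
  N_bot : N ⊥ = ⊤
  Sol_anti : ∀ b b' W W', W ≤ W' → Sol b b' W' ⊆ Sol b b' W
  sol_D : ∀ b W M, M ∈ Sol b b W ↔ M ∈ D W
  neg_mem : ∀ b b' W M, M ∈ Sol b b' W → -M ∈ Sol b' b W
  add_mem : ∀ b b' b'' W M M', M ∈ Sol b b' W → M' ∈ Sol b' b'' W → M + M' ∈ Sol b b'' W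
  size_bot : size ⊥ = 0
  size_mono : ∀ W W', W ≤ W' → size W ≤ size W'
  size_sup : ∀ W W', size (W ⊔ W') ≤ size W + size W'
  bot_sol : ∀ b b', (Sol b b' ⊥).Nonempty
  extend : ∀ b b' W W', W ≤ W' → size W' ≤ K → ∀ M ∈ Sol b b' W,
    ∃ M' ∈ Sol b b' W', M' - M ∈ N W
  act : X → V ≃ V
  act_zero : ∀ u, act 0 u = u
  act_add : ∀ M M' u, act (M + M') u = act M (act M' u)
  lv : V → L
  lv_act : ∀ M u, lv (act M u) = lv u
  fix : ∀ n u, n ∈ N (lv u) → act n u = u
  faithful : ∀ n u, act n u = u → n ∈ N (lv u)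
  c : ℕ
  size_lv : ∀ u, size (lv u) ≤ c
  G : B → V → V → Prop
  G_inj : Function.Injective G
  adj : ∀ b b' u u' M, M ∈ Sol b b' (lv u ⊔ lv u') →
    (G b u u' ↔ G b' (act M u) (act M u'))

namespace Fam

variable {X L V B : Type} [AddCommGroup X] [SemilatticeSup L] [OrderBot L] (F : Fam X L V B)

/-- The affine system for two members of the family. -/
def toSys (b b' : B) : Sys X L where
  N := F.N
  D := F.D
  Sol := F.Sol b b'
  size := F.size
  K := F.K
  N_anti := F.N_anti
  D_anti W W' h M hM := (F.sol_D b W M).1 (F.Sol_anti b b W W' h ((F.sol_D b W' M).2 hM))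
  Sol_anti := F.Sol_anti b b'
  sol_iff W M M' hM := by
    constructor
    · intro h
      have h1 := F.add_mem b' b b' W _ _ (F.neg_mem b b' W M hM) h
      rw [F.sol_D] at h1
      have h2 : M' - M = -M + M' := by abel
      rwa [h2]
    · intro h
      have h1 := F.add_mem b b' b' W _ _ hM ((F.sol_D b' W _).2 h)
      have h2 : M + (M' - M) = M' := by abel
      rwa [h2] at h1
  size_bot := F.size_bot
  size_sup := F.size_sup
  nonempty W hW := by
    obtain ⟨M, hM⟩ := F.bot_sol b b'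
    obtain ⟨M', hM', _⟩ := F.extend b b' ⊥ W bot_le hW M hM
    exact ⟨M', hM'⟩
  extend := F.extend b b'

/-- The level of a list of vertices. -/
def lvl : List V → L
  | [] => ⊥
  | u :: v => lvl v ⊔ F.lv u

theorem lv_le_lvl {v : List V} {u : V} (hu : u ∈ v) : F.lv u ≤ F.lvl v := by
  induction v with
  | nil => exact absurd hu (by simp)
  | cons w v ih =>
    rcases List.mem_cons.1 hu with h | h
    · rw [h]
      exact le_sup_right
    · exact (ih h).trans le_sup_left

theorem lvl_map (M : X) (v : List V) : F.lvl (v.map (F.act M)) = F.lvl v := by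
  induction v with
  | nil => rfl
  | cons w v ih =>
    show F.lvl (v.map (F.act M)) ⊔ F.lv (F.act M w) = F.lvl v ⊔ F.lv w
    rw [ih, F.lv_act]

theorem lvl_drop (v : List V) (j : ℕ) : F.lvl (v.drop j) ≤ F.lvl v := by
  induction v generalizing j with
  | nil =>
    rw [List.drop_nil]
  | cons p v ih =>
    cases j with
    | zero => exact le_rfl
    | succ j => exact (ih j).trans le_sup_left

theorem act_congr {M M' : X} {W : L} (h : M' - M ∈ F.N W) {u : V} (hu : F.lv u ≤ W) :
    F.act M' u = F.act M u := by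
  have h1 : M' = M + (M' - M) := by abel
  rw [h1, F.act_add, F.fix _ u (F.N_anti _ _ hu h)]

theorem map_congr {M M' : X} {v : List V} (h : M' - M ∈ F.N (F.lvl v)) :
    v.map (F.act M') = v.map (F.act M) :=
  List.map_congr_left fun _ hu => F.act_congr h (F.lv_le_lvl hu)

theorem map_inj {M M' : X} {v : List V} (h : v.map (F.act M') = v.map (F.act M)) :
    M' - M ∈ F.N (F.lvl v) := by
  induction v with
  | nil =>
    show M' - M ∈ F.N ⊥
    rw [F.N_bot]
    exact AddSubgroup.mem_top _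
  | cons w v ih =>
    rw [List.map_cons, List.map_cons] at h
    have h2 := (List.cons_eq_cons.1 h).1
    have h3 := (List.cons_eq_cons.1 h).2
    refine F.N_sup _ _ ⟨ih h3, F.faithful _ _ ?_⟩
    have h4 : M' - M = -M + M' := by abel
    rw [h4, F.act_add, h2, ← F.act_add, neg_add_cancel, F.act_zero]

theorem act_neg_act (M : X) (u : V) : F.act (-M) (F.act M u) = u := by
  rw [← F.act_add, neg_add_cancel, F.act_zero]

theorem act_act_neg (M : X) (u : V) : F.act M (F.act (-M) u) = u := by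
  rw [← F.act_add, add_neg_cancel, F.act_zero]

theorem map_neg_map (M : X) (v : List V) : (v.map (F.act M)).map (F.act (-M)) = v := by
  rw [List.map_map]
  have : (F.act (-M) ∘ F.act M : V → V) = id := funext fun u => F.act_neg_act M u
  rw [this, List.map_id]

theorem size_lvT {k : ℕ} (T : Fin k → V) : F.size (lvT F.lv T) ≤ F.c * k := by
  classical
  have h : ∀ s : Finset (Fin k), F.size (s.sup fun a => F.lv (T a)) ≤ F.c * s.card := by
    intro s
    induction s using Finset.induction_on with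
    | empty => simp [F.size_bot]
    | insert a s ha ih =>
      rw [Finset.sup_insert, Finset.card_insert_of_notMem ha]
      have h1 := F.size_sup (F.lv (T a)) (s.sup fun a => F.lv (T a))
      have h2 := F.size_lv (T a)
      rw [mul_add, mul_one]
      omega
  have h1 := h Finset.univ
  rw [Finset.card_univ, Fintype.card_fin] at h1
  exact h1

variable [Fintype X] [Fintype V]

/-- One invertible matrix for all pairs of functions which correspond to each other locally. -/
theorem exists_similar [DecidableEq V] {K : Type} [Field K] [IsAlgClosed K]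
    (hX : (Fintype.card X : K) ≠ 0) {k m : ℕ} (b b' : B) (v : List V)
    (hsz : F.size (F.lvl v) + 4 * (F.c * k) ≤ F.K)
    (ι : Fin m ⊕ Fin m ↪ Fin k) (u : Fin k → V) {M₀ : X}
    (hM₀ : M₀ ∈ F.Sol b b' (F.lvl v ⊔ lvT F.lv u)) :
    ∃ (P Q : Matrix (Fin m → V) (Fin m → V) K),
      P * Q = 1 ∧ Q * P = 1 ∧ ∀ (α β : (Fin k → V) → K),
      (∀ w, ∀ M ∈ F.Sol b b' (F.lvl v ⊔ lvT F.lv w), M - M₀ ∈ F.N (F.lvl v) →
        α w = β fun a => F.act M (w a)) →
      (Matrix.of fun x y => α (subst ι u x y)) * P =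
        P * (Matrix.of fun x y => β (subst ι (fun a => F.act M₀ (u a)) x y)) := by
  have hm : m ≤ k := by
    have := Fintype.card_le_of_embedding ι
    rw [Fintype.card_sum, Fintype.card_fin, Fintype.card_fin] at this
    omega
  have hcm : F.c * m ≤ F.c * k := Nat.mul_le_mul_left _ hm
  obtain ⟨P, Q, hPQ, hQP, h⟩ := exists_intertwiner (S := F.toSys b b') (K := K) (Y := Fin m → V)
    (fun t y a => F.act t (y a)) (fun y => lvT F.lv y) (W₀ := F.lvl v ⊔ lvT F.lv u) (M₀ := M₀)
    (r := F.c * k) hX (fun y => funext fun a => F.act_zero _)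
    (fun s t y => funext fun a => F.act_add s t _)
    (fun t y => lvT_congr fun a => F.lv_act t _)
    (fun y n hn => funext fun a => F.fix n _ (F.N_anti _ _ (lv_le_lvT y a) hn))
    (fun y => (F.size_lvT y).trans hcm) (by
      show F.size (F.lvl v ⊔ lvT F.lv u) + 3 * (F.c * k) ≤ F.K
      have h1 := F.size_lvT u
      have h2 := F.size_sup (F.lvl v) (lvT F.lv u)
      omega) hM₀
  let e : (Fin m → V) ≃ (Fin m → V) := Equiv.arrowCongr (Equiv.refl _) (F.act M₀)
  have he : ∀ y, e y = fun a => F.act M₀ (y a) := fun y => rfl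
  refine ⟨Q.submatrix id e.symm, P.submatrix e.symm id, ?_, ?_, ?_⟩
  · rw [Matrix.submatrix_mul_equiv, hQP]
    exact Matrix.submatrix_one_equiv (Equiv.refl _)
  · rw [← Matrix.submatrix_mul P Q e.symm id e.symm Function.bijective_id, hPQ]
    exact Matrix.submatrix_one_equiv e.symm
  · intro α β hαβ
    let AA : Matrix (Fin m → V) (Fin m → V) K := Matrix.of fun x y => α (subst ι u x y)
    let BB : Matrix (Fin m → V) (Fin m → V) K :=
      Matrix.of fun x y => β (subst ι (fun a => F.act M₀ (u a)) x y)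
    have h1 : P * AA = BB.submatrix e e * P := by
      refine h AA (BB.submatrix e e) fun x y t ht hS => ?_
      have hl := lvT_subst F.lv ι u x y
      have hl2 : F.lvl v ⊔ lvT F.lv (subst ι u x y) ≤
          F.lvl v ⊔ lvT F.lv u ⊔ lvT F.lv x ⊔ lvT F.lv y := by
        refine sup_le ?_ (hl.trans ?_)
        · exact le_sup_left.trans (le_sup_left.trans le_sup_left)
        · exact sup_le (sup_le (le_sup_right.trans (le_sup_left.trans le_sup_left))
            (le_sup_right.trans le_sup_left)) le_sup_right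
      have h2 := hαβ (subst ι u x y) (M₀ + t) (F.Sol_anti b b' _ _ hl2 hS) (by
        rw [add_sub_cancel_left]
        exact F.N_anti _ _ le_sup_left ht)
      show α (subst ι u x y) = β (subst ι (fun a => F.act M₀ (u a))
        (fun a => F.act M₀ (F.act t (x a))) (fun a => F.act M₀ (F.act t (y a))))
      rw [h2, comp_subst (fun v => F.act (M₀ + t) v)]
      simp only [F.act_add]
      have h3 : (fun a => F.act M₀ (F.act t (u a))) = fun a => F.act M₀ (u a) := by
        funext a
        rw [F.fix t (u a) (F.N_anti _ _ ((lv_le_lvT u a).trans le_sup_right) ht)]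
      rw [h3]
    have h2 : AA * Q = Q * BB.submatrix e e := by
      calc AA * Q = Q * P * (AA * Q) := by rw [hQP, Matrix.one_mul]
        _ = Q * (P * AA) * Q := by simp only [Matrix.mul_assoc]
        _ = Q * (BB.submatrix e e * P) * Q := by rw [h1]
        _ = Q * BB.submatrix e e * (P * Q) := by simp only [Matrix.mul_assoc]
        _ = _ := by rw [hPQ, Matrix.mul_one]
    show AA * Q.submatrix id e.symm = Q.submatrix id e.symm * BB
    have h3 : BB = (BB.submatrix e e).submatrix e.symm e.symm := by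
      ext x y
      show BB x y = BB (e (e.symm x)) (e (e.symm y))
      rw [Equiv.apply_symm_apply, Equiv.apply_symm_apply]
    rw [h3, Matrix.submatrix_mul_equiv, ← h2]
    have h4 : AA = AA.submatrix id id := rfl
    conv_lhs => rw [h4]
    exact (Matrix.submatrix_mul AA Q id id e.symm Function.bijective_id).symm

/-- The stable colouring of the family. -/
def Rk (s0 k : ℕ) (a b : Sit V k) : Prop :=
  a = b ∨ ∃ (β β' : B) (M : X), a.1.1 = F.G β ∧ b.1.1 = F.G β' ∧ F.size (F.lvl a.1.2) ≤ s0 ∧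
    M ∈ F.Sol β β' (F.lvl a.1.2 ⊔ lvT F.lv a.2) ∧ b.1.2 = a.1.2.map (F.act M) ∧
    b.2 = fun i => F.act M (a.2 i)

theorem Rk_equiv (s0 k : ℕ) : Equivalence (F.Rk s0 k) where
  refl a := Or.inl rfl
  symm := by
    rintro ⟨⟨A, v⟩, T⟩ ⟨⟨A', v'⟩, T'⟩ (h | ⟨β, β', M, h1, h2, h3, h4, h5, h6⟩)
    · exact Or.inl h.symm
    · right
      simp only at h1 h2 h3 h4 h5 h6
      subst h1 h2 h5 h6
      refine ⟨β', β, -M, rfl, rfl, ?_, ?_, ?_, ?_⟩
      · show F.size (F.lvl (v.map (F.act M))) ≤ s0
        rwa [F.lvl_map]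
      · show -M ∈ F.Sol β' β (F.lvl (v.map (F.act M)) ⊔ lvT F.lv fun i => F.act M (T i))
        have e1 : lvT F.lv (fun i => F.act M (T i)) = lvT F.lv T :=
          lvT_congr fun i => F.lv_act M _
        rw [F.lvl_map, e1]
        exact F.neg_mem _ _ _ _ h4
      · exact (F.map_neg_map M v).symm
      · funext i
        exact (F.act_neg_act M _).symm
  trans := by
    rintro ⟨⟨A, v⟩, T⟩ ⟨⟨A', v'⟩, T'⟩ ⟨⟨A'', v''⟩, T''⟩ h h'
    rcases h with h | ⟨β, β', M, h1, h2, h3, h4, h5, h6⟩
    · rw [h]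
      exact h'
    rcases h' with h' | ⟨γ, γ', M', h1', h2', h3', h4', h5', h6'⟩
    · rw [← h']
      exact Or.inr ⟨β, β', M, h1, h2, h3, h4, h5, h6⟩
    right
    simp only at h1 h2 h3 h4 h5 h6 h1' h2' h3' h4' h5' h6'
    have hβ : β' = γ := F.G_inj (h2.symm.trans h1')
    subst hβ
    subst h1 h2 h5 h6 h2' h5' h6'
    have e1 : lvT F.lv (fun i => F.act M (T i)) = lvT F.lv T := lvT_congr fun i => F.lv_act M _
    rw [F.lvl_map, e1] at h4'
    refine ⟨β, γ', M' + M, rfl, rfl, h3, ?_, ?_, ?_⟩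
    · show M' + M ∈ F.Sol β γ' (F.lvl v ⊔ lvT F.lv T)
      rw [add_comm]
      exact F.add_mem _ _ _ _ _ _ h4 h4'
    · show (v.map (F.act M)).map (F.act M') = v.map (F.act (M' + M))
      rw [List.map_map]
      refine List.map_congr_left fun u _ => ?_
      exact (F.act_add M' M u).symm
    · funext i
      exact (F.act_add M' M _).symm

theorem Rk_stable {p s0 k : ℕ}
    (hX : ∀ (K : Type) [Field K], (p : K) ≠ 0 → (Fintype.card X : K) ≠ 0)
    (hs : s0 + 4 * (F.c * k) ≤ F.K) : Stable p k (F.Rk s0 k) where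
  equiv := F.Rk_equiv s0 k
  eq := by
    rintro a b (h | ⟨β, β', M, h1, h2, h3, h4, h5, h6⟩) i j
    · rw [h]
    · rw [h6]
      exact (F.act M).injective.eq_iff.symm
  adj := by
    rintro a b (h | ⟨β, β', M, h1, h2, h3, h4, h5, h6⟩) i j
    · rw [h]
    · rw [h6, h1, h2]
      refine F.adj β β' _ _ M (F.Sol_anti _ _ _ _ ?_ h4)
      exact (sup_le (lv_le_lvT a.2 i) (lv_le_lvT a.2 j)).trans le_sup_right
  ind := by
    rintro a b (h | ⟨β, β', M, h1, h2, h3, h4, h5, h6⟩) i
    · rw [h]
    · rw [h5, h6, List.map_map]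
      refine List.map_congr_left fun w _ => ?_
      exact propext (F.act M).injective.eq_iff.symm
  similar := by
    rintro a b hab K _ hp m ι
    rcases hab with h | ⟨β, β', M₀, h1, h2, h3, h4, h5, h6⟩
    · rw [h]
      exact sim_refl _ _ _ _
    let _ : DecidableEq V := Classical.decEq V
    classical
    have hX' : (Fintype.card X : AlgebraicClosure K) ≠ 0 := by
      intro h3
      apply hX K hp
      apply (algebraMap K (AlgebraicClosure K)).injective
      rw [map_natCast, map_zero, h3]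
    obtain ⟨P, Q, hPQ, hQP, hmain⟩ := F.exists_similar hX' β β' a.1.2 (k := k) (m := m)
      (by omega) ι a.2 h4
    refine ⟨P, Q, hPQ, hQP, fun c => ?_⟩
    · have key := hmain (fun w => if F.Rk s0 k c (a.1, w) then 1 else 0)
        (fun w => if F.Rk s0 k c (b.1, w) then 1 else 0) ?_
      · have e1 : b.2 = fun i => F.act M₀ (a.2 i) := h6
        have e2 : classMatrix (AlgebraicClosure K) (F.Rk s0 k) (Prod.mk a.1) ι a.2 c =
            Matrix.of fun x y => if F.Rk s0 k c (a.1, subst ι a.2 x y) then 1 else 0 := by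
          ext x y
          simp only [classMatrix, Matrix.of_apply]
        have e3 : classMatrix (AlgebraicClosure K) (F.Rk s0 k) (Prod.mk b.1) ι b.2 c =
            Matrix.of fun x y => if F.Rk s0 k c (b.1, subst ι (fun i => F.act M₀ (a.2 i)) x y)
              then 1 else 0 := by
          ext x y
          simp only [classMatrix, Matrix.of_apply, e1]
        rw [e2, e3]
        exact key
      · intro w M hM hMM
        have h7 : F.Rk s0 k (a.1, w) (b.1, fun i => F.act M (w i)) := by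
          right
          refine ⟨β, β', M, h1, h2, h3, hM, ?_, rfl⟩
          show b.1.2 = a.1.2.map (F.act M)
          rw [h5]
          exact (F.map_congr hMM).symm
        have h8 : F.Rk s0 k c (a.1, w) ↔ F.Rk s0 k c (b.1, fun i => F.act M (w i)) :=
          ⟨fun h => (F.Rk_equiv s0 k).trans h h7,
            fun h => (F.Rk_equiv s0 k).trans h ((F.Rk_equiv s0 k).symm h7)⟩
        simp only [h8]

section ir

variable {p s0 k : ℕ} (hX : ∀ (K : Type) [Field K], (p : K) ≠ 0 → (Fintype.card X : K) ≠ 0)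
  (hs : s0 + 4 * (F.c * k) ≤ F.K)

include hX hs

theorem alike {b b' : B} {v : List V} {T : Fin k → V} {M : X}
    (hv : F.size (F.lvl v) ≤ s0) (hM : M ∈ F.Sol b b' (F.lvl v ⊔ lvT F.lv T)) :
    Alike p k ((F.G b, v), T) ((F.G b', v.map (F.act M)), fun i => F.act M (T i)) :=
  ⟨F.Rk s0 k, F.Rk_stable hX hs, Or.inr ⟨b, b', M, rfl, rfl, hv, hM, rfl, rfl⟩⟩

theorem alike' {b b' : B} {v : List V} {T : Fin k → V} {M M' : X}
    (hv : F.size (F.lvl v) ≤ s0) (hM : M' ∈ F.Sol b b' (F.lvl v ⊔ lvT F.lv T))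
    (hMM : M' - M ∈ F.N (F.lvl v)) :
    Alike p k ((F.G b, v), T) ((F.G b', v.map (F.act M)), fun i => F.act M' (T i)) := by
  rw [← F.map_congr hMM]
  exact F.alike hX hs hv hM

theorem indist {b b' : B} {v : List V} {M : X}
    (hv : F.size (F.lvl v) ≤ s0) (hM : M ∈ F.Sol b b' (F.lvl v)) :
    Indist p k (F.G b) v (F.G b') (v.map (F.act M)) := by
  have hex : ∀ W : L, ∃ M' : X, F.size W ≤ F.c * k →
      M' ∈ F.Sol b b' (F.lvl v ⊔ W) ∧ M' - M ∈ F.N (F.lvl v) := by
    intro W
    by_cases hW : F.size W ≤ F.c * k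
    · obtain ⟨M', hM', hN⟩ := F.extend b b' (F.lvl v) (F.lvl v ⊔ W) le_sup_left (by
        have := F.size_sup (F.lvl v) W
        omega) M hM
      exact ⟨M', fun _ => ⟨hM', hN⟩⟩
    · exact ⟨0, fun h => absurd h hW⟩
  choose Mf hMf using hex
  have e1 : ∀ (M' : X) (T : Fin k → V), lvT F.lv (fun i => F.act M' (T i)) = lvT F.lv T :=
    fun M' T => lvT_congr fun i => F.lv_act M' _
  refine ⟨⟨fun T i => F.act (Mf (lvT F.lv T)) (T i), fun T i => F.act (-(Mf (lvT F.lv T))) (T i),
    ?_, ?_⟩, ?_⟩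
  · intro T
    funext i
    show F.act (-(Mf (lvT F.lv fun i => F.act (Mf (lvT F.lv T)) (T i))))
      (F.act (Mf (lvT F.lv T)) (T i)) = T i
    rw [e1, F.act_neg_act]
  · intro T
    funext i
    show F.act (Mf (lvT F.lv fun i => F.act (-(Mf (lvT F.lv T))) (T i)))
      (F.act (-(Mf (lvT F.lv T))) (T i)) = T i
    rw [e1, F.act_act_neg]
  · intro T
    obtain ⟨h1, h2⟩ := hMf (lvT F.lv T) (F.size_lvT T)
    exact F.alike' hX hs hv h1 h2

theorem const_alike {b b' : B} {v : List V} {M M' : X} {u : V}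
    (hv : F.size (F.lvl v) ≤ s0) (hM : M' ∈ F.Sol b b' (F.lvl v ⊔ F.lv u))
    (hMM : M' - M ∈ F.N (F.lvl v)) :
    Alike p k ((F.G b, v), fun _ => u) ((F.G b', v.map (F.act M)), fun _ => F.act M' u) := by
  refine F.alike' hX hs hv (F.Sol_anti _ _ _ _ ?_ hM) hMM
  exact sup_le_sup_left (Finset.sup_le fun _ _ => le_rfl) _

/-- There is a bijection between the vertices which preserves the cells. -/
theorem exists_B (hk : 1 ≤ k) {b b' : B} {v : List V} {M : X}
    (hv : F.size (F.lvl v) ≤ s0) (hM : M ∈ F.Sol b b' (F.lvl v)) :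
    ∃ f : V → V, Function.Injective f ∧ ∀ u,
      Alike p k ((F.G b, v), fun _ => u) ((F.G b', v.map (F.act M)), fun _ => f u) :=
  (F.indist hX hs hv hM).vertices hk

theorem sel_map (hk : 1 ≤ k) {sel : (V → V → Prop) → List V → Set V}
    (hsel : IsSelector p k sel) {b b' : B} {v : List V} {M M' : X} {u : V}
    (hv : F.size (F.lvl v) ≤ s0) (hM : M' ∈ F.Sol b b' (F.lvl v ⊔ F.lv u))
    (hMM : M' - M ∈ F.N (F.lvl v)) (hM0 : M ∈ F.Sol b b' (F.lvl v))
    (hu : u ∈ sel (F.G b) v) : F.act M' u ∈ sel (F.G b') (v.map (F.act M)) := by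
  obtain ⟨f, hf, hfa⟩ := F.exists_B hX hs hk hv hM0
  have hnt := (hsel.cell _ _ u hu).2
  have hnt' := nontrivial_map hf hfa (hfa u) hnt
  have hne : sel (F.G b') (v.map (F.act M)) ≠ ∅ := by
    intro h0
    exact hsel.discrete _ _ h0 _ hnt'
  obtain ⟨u', hu'⟩ := Set.nonempty_iff_ne_empty.2 hne
  rw [(hsel.cell _ _ u' hu').1]
  show Alike p k _ _
  exact (F.const_alike hX hs hv hM hMM).symm.trans
    (hsel.invariant _ _ _ _ (F.indist hX hs hv hM0) u hu u' hu')

theorem node_map (hk : 1 ≤ k) {sel : (V → V → Prop) → List V → Set V}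
    (hsel : IsSelector p k sel) {b b' : B} {v : List V} (hnode : IsNode sel (F.G b) v)
    (hv : F.size (F.lvl v) ≤ s0) {M : X} (hM : M ∈ F.Sol b b' (F.lvl v)) :
    IsNode sel (F.G b') (v.map (F.act M)) := by
  induction hnode with
  | nil => exact IsNode.nil
  | cons u v _ hu ih =>
    have hle : F.lvl v ≤ F.lvl (u :: v) := le_sup_left
    have h1 := F.size_mono _ _ hle
    have h2 := F.Sol_anti b b' _ _ hle hM
    refine IsNode.cons _ _ (ih (by omega) h2) (F.sel_map hX hs hk hsel (by omega) hM ?_ h2 hu)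
    rw [sub_self]
    exact (F.N _).zero_mem

theorem looksLike_map {b b' : B} {v : List V} (hv : F.size (F.lvl v) ≤ s0) {M : X}
    (hM : M ∈ F.Sol b b' (F.lvl v)) :
    LooksLike p k (F.G b) v (F.G b') (v.map (F.act M)) := by
  refine ⟨(List.length_map _).symm, fun j => ?_⟩
  rw [← List.map_drop]
  have h1 := F.size_mono _ _ (F.lvl_drop v j)
  exact F.indist hX hs (by omega) (F.Sol_anti _ _ _ _ (F.lvl_drop v j) hM)

/-- Leaves have long paths. -/
theorem leaf_large {sel : (V → V → Prop) → List V → Set V}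
    (hsel : IsSelector p k sel)
    (hmov : ∀ W, F.size W ≤ s0 → ∃ (u : V) (M : X), M ∈ F.D (W ⊔ F.lv u) ∧ M ∈ F.N W ∧
      F.act M u ≠ u) {b : B} {v : List V} (hleaf : IsLeaf sel (F.G b) v) :
    s0 < F.size (F.lvl v) := by
  by_contra hcon
  push Not at hcon
  obtain ⟨u, M, hM, hN, hne⟩ := hmov (F.lvl v) hcon
  have h1 : Alike p k ((F.G b, v), fun _ => u) ((F.G b, v.map (F.act 0)), fun _ => F.act M u) :=
    F.const_alike hX hs hcon ((F.sol_D b _ _).2 hM) (by rwa [sub_zero])
  have h2 : v.map (F.act 0) = v := by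
    have : (F.act 0 : V → V) = id := funext fun u => F.act_zero u
    rw [this, List.map_id]
  rw [h2] at h1
  exact hsel.discrete _ _ hleaf.2 u ⟨u, Alike.refl _, F.act M u, h1.symm, hne.symm⟩

omit hX hs [Fintype X] [Fintype V] in
theorem exists_mid (v : List V) (w0 : ℕ) (hw : w0 ≤ F.size (F.lvl v)) :
    ∃ j, w0 ≤ F.size (F.lvl (v.drop j)) ∧ F.size (F.lvl (v.drop j)) ≤ w0 + F.c := by
  induction v with
  | nil =>
    refine ⟨0, hw, ?_⟩
    show F.size ⊥ ≤ w0 + F.c
    rw [F.size_bot]
    exact Nat.zero_le _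
  | cons q v ih =>
    by_cases h1 : w0 ≤ F.size (F.lvl v)
    · obtain ⟨j, hj⟩ := ih h1
      exact ⟨j + 1, hj⟩
    · refine ⟨0, hw, ?_⟩
      have h2 : F.size (F.lvl (q :: v)) ≤ F.size (F.lvl v) + F.size (F.lv q) := F.size_sup _ _
      have h3 := F.size_lv q
      show F.size (F.lvl (q :: v)) ≤ w0 + F.c
      omega

omit hX hs [Fintype X] [Fintype V] in
theorem node_drop {sel : (V → V → Prop) → List V → Set V} {A : V → V → Prop}
    {v : List V} (hv : IsNode sel A v) (j : ℕ) : IsNode sel A (v.drop j) := by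
  induction hv generalizing j with
  | nil =>
    rw [List.drop_nil]
    exact IsNode.nil
  | cons u v hv hu ih =>
    cases j with
    | zero => exact IsNode.cons u v hv hu
    | succ j => exact ih j

/-- The lower bound for the number of visited nodes. -/
theorem explored (hk : 1 ≤ k) {sel : (V → V → Prop) → List V → Set V}
    (hsel : IsSelector p k sel)
    (hmov : ∀ W, F.size W ≤ s0 → ∃ (u : V) (M : X), M ∈ F.D (W ⊔ F.lv u) ∧ M ∈ F.N W ∧
      F.act M u ≠ u) (w0 : ℕ) (hw0 : w0 + F.c ≤ s0) (b b' : B) (n : ℕ)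
    (hmany : ∀ W, w0 ≤ F.size W → F.size W ≤ s0 → ∃ 𝓜 : Finset X,
      (∀ M ∈ 𝓜, M ∈ F.Sol b b' W) ∧ (∀ M ∈ 𝓜, ∀ M' ∈ 𝓜, M - M' ∈ F.N W → M = M') ∧
      n ≤ 𝓜.card)
    {v : List V} (hleaf : IsLeaf sel (F.G b) v) {E : Finset (List V)}
    (hex : Explores p k sel (F.G b) v (F.G b') E) :
    n ≤ Nat.card {α : V ≃ V // ∀ x y, F.G b' (α x) (α y) ↔ F.G b' x y} * E.card := by
  classical
  have h1 := F.leaf_large hX hs hsel hmov hleaf
  obtain ⟨j, hj1, hj2⟩ := F.exists_mid v w0 (by omega)
  obtain ⟨𝓜, hgood, hsep, hcard⟩ := hmany (F.lvl (v.drop j)) hj1 (by omega)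
  have hnode := node_drop hleaf.1 j
  have hα : ∀ M : X, ∃ α : {α : V ≃ V // ∀ x y, F.G b' (α x) (α y) ↔ F.G b' x y},
      M ∈ 𝓜 → ((v.drop j).map (F.act M)).map α.1 ∈ E := by
    intro M
    by_cases hM : M ∈ 𝓜
    · obtain ⟨α, hα1, hα2⟩ := hex j ((v.drop j).map (F.act M))
        (F.node_map hX hs hk hsel hnode (by omega) (hgood M hM))
        (F.looksLike_map hX hs (by omega) (hgood M hM))
      exact ⟨⟨α, hα1⟩, fun _ => hα2⟩
    · exact ⟨⟨Equiv.refl _, fun _ _ => Iff.rfl⟩, fun h' => absurd h' hM⟩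
  choose α hαE using hα
  have hle : 𝓜.card ≤ ((Finset.univ : Finset {α : V ≃ V // ∀ x y, F.G b' (α x) (α y) ↔
      F.G b' x y}) ×ˢ E).card := by
    refine Finset.card_le_card_of_injOn
      (fun M => (α M, ((v.drop j).map (F.act M)).map (α M).1)) ?_ ?_
    · intro M hM
      exact Finset.mem_coe.2 (Finset.mem_product.2 ⟨Finset.mem_univ _, hαE M hM⟩)
    · intro M hM M' hM' heq
      have e1 : α M = α M' := congrArg Prod.fst heq
      have e2 : ((v.drop j).map (F.act M)).map (α M).1 =
          ((v.drop j).map (F.act M')).map (α M').1 := congrArg Prod.snd heq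
      rw [← e1] at e2
      have e3 := (List.map_injective_iff.2 (α M).1.injective) e2
      exact hsep M hM M' hM' (F.map_inj e3)
  rw [Finset.card_product, Finset.card_univ, ← Nat.card_eq_fintype_card] at hle
  exact hcard.trans hle

end ir

end Fam

end Pool.Agent.Y598.IM
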