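import Pool.Agent.Y598.IM.Fam
import Pool.Agent.W185.IR.Main

/-!
# Latin square graphs and individualization-refinement with the invertible-map test
-/

set_option autoImplicit false
set_option linter.unusedSectionVars false

namespace Pool.Agent.Y598.IM

open Finset Module Pool.Agent.W185.SRG Pool.Agent.W185.LSQ Pool.Agent.W185.IR

section

variable {a r : ℕ} {S Γ : Type} [Fintype S] [DecidableEq S]
  [AddCommGroup Γ] [Module (ZMod 2) Γ] [Fintype Γ] [DecidableEq Γ]

/-- The maps which vanish on `W`. -/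
def NN (W : Submodule (ZMod 2) (Fin a → ZMod 2)) :
    AddSubgroup ((Fin a → ZMod 2) →ₗ[ZMod 2] (Fin r → ZMod 2)) where
  carrier := {M | ∀ w ∈ W, M w = 0}
  add_mem' := by
    intro M M' h h' w hw
    rw [LinearMap.add_apply, h w hw, h' w hw, add_zero]
  zero_mem' := fun w _ => rfl
  neg_mem' := by
    intro M h w hw
    rw [LinearMap.neg_apply, h w hw, neg_zero]

theorem good_add {n : ℕ} {x : S → Fin a → ZMod 2} {ψ : S → Fin r → ZMod 2} {β β' : S → ZMod 2}
    {W : Submodule (ZMod 2) (Fin a → ZMod 2)}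
    {M M' : (Fin a → ZMod 2) →ₗ[ZMod 2] (Fin r → ZMod 2)} (h : Good n x ψ β W M)
    (h' : Good n x ψ β' W M') : Good n x ψ (β + β') W (M + M') := by
  intro t h1 h2
  have h3 : ∑ s, t s * (ψ s ⬝ᵥ (M + M') (x s) + (β + β') s) =
      ∑ s, t s * (ψ s ⬝ᵥ M (x s) + β s) + ∑ s, t s * (ψ s ⬝ᵥ M' (x s) + β' s) := by
    rw [← Finset.sum_add_distrib]
    refine Finset.sum_congr rfl fun s _ => ?_
    rw [LinearMap.add_apply, dotProduct_add, Pi.add_apply]
    ring
  rw [h3, h t h1 h2, h' t h1 h2, add_zero]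

theorem neg_eq (M : (Fin a → ZMod 2) →ₗ[ZMod 2] (Fin r → ZMod 2)) : -M = M := by
  rw [neg_eq_iff_add_eq_zero]
  exact two_zero M

theorem add_self_fun (β : S → ZMod 2) : β + β = 0 := by
  funext s
  exact CharTwo.add_self_eq_zero _

/-- The maps which satisfy the homogeneous equations seen by `W`. -/
def DD (n : ℕ) (x : S → Fin a → ZMod 2) (ψ : S → Fin r → ZMod 2)
    (W : Submodule (ZMod 2) (Fin a → ZMod 2)) :
    AddSubgroup ((Fin a → ZMod 2) →ₗ[ZMod 2] (Fin r → ZMod 2)) where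
  carrier := {M | Good n x ψ 0 W M}
  add_mem' := by
    intro M M' h h'
    have := good_add h h'
    rw [add_zero] at this
    exact this
  zero_mem' := by
    intro t _ _
    refine Finset.sum_eq_zero fun s _ => ?_
    rw [LinearMap.zero_apply, dotProduct_zero, Pi.zero_apply, add_zero, mul_zero]
  neg_mem' := by
    intro M h
    rw [neg_eq]
    exact h

/-- The shear as a permutation of the cells. -/
def shE (M : (Fin a → ZMod 2) →ₗ[ZMod 2] (Fin r → ZMod 2)) :
    QQ a r Γ × QQ a r Γ ≃ QQ a r Γ × QQ a r Γ where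
  toFun := sh2 M
  invFun := sh2 M
  left_inv := sh2_sh2 M
  right_inv := sh2_sh2 M

/-- The family of Latin square graphs. -/
noncomputable def lsFam {n : ℕ} (hn : 0 < n) {x y : S → Fin a → ZMod 2} {ψ : S → Fin r → ZMod 2} (γ : Γ)
    (hE : Expands n x ψ) (h : (Fin a → ZMod 2) → (Fin a → ZMod 2) → Γ)
    (bb : Bool → S → ZMod 2)
    (hinj : Function.Injective fun b => (GG x y ψ γ h (bb b)).Adj) :
    Fam ((Fin a → ZMod 2) →ₗ[ZMod 2] (Fin r → ZMod 2)) (Submodule (ZMod 2) (Fin a → ZMod 2))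
      (QQ a r Γ × QQ a r Γ) Bool where
  N := NN
  D := DD n x ψ
  Sol b b' W := {M | Good n x ψ (bb b + bb b') W M}
  size W := finrank (ZMod 2) W
  K := n
  N_anti W W' h M hM w hw := hM w (h hw)
  N_sup W W' M hM w hw := by
    obtain ⟨w1, hw1, w2, hw2, rfl⟩ := Submodule.mem_sup.1 hw
    rw [map_add, hM.1 w1 hw1, hM.2 w2 hw2, add_zero]
  N_bot := by
    rw [eq_top_iff]
    intro M _ w hw
    rw [(Submodule.mem_bot _).1 hw, map_zero]
  Sol_anti b b' W W' h M hM := Good.mono h hM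
  sol_D b W M := by
    show Good n x ψ (bb b + bb b) W M ↔ Good n x ψ 0 W M
    rw [add_self_fun]
  neg_mem b b' W M hM := by
    show Good n x ψ (bb b' + bb b) W (-M)
    rw [neg_eq, add_comm]
    exact hM
  add_mem b b' b'' W M M' hM hM' := by
    show Good n x ψ (bb b + bb b'') W (M + M')
    have h1 := good_add (show Good n x ψ (bb b + bb b') W M from hM)
      (show Good n x ψ (bb b' + bb b'') W M' from hM')
    have h2 : bb b + bb b' + (bb b' + bb b'') = bb b + bb b'' := by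
      calc bb b + bb b' + (bb b' + bb b'') = bb b + bb b'' + (bb b' + bb b') := by abel
        _ = _ := by rw [add_self_fun, add_zero]
    rwa [h2] at h1
  size_bot := finrank_bot _ _
  size_mono W W' h := Submodule.finrank_mono h
  size_sup W W' := Submodule.finrank_add_le_finrank_add_finrank W W'
  bot_sol b b' := ⟨0, good_bot hE _ 0⟩
  extend b b' W W' hWW hW' M hM := by
    obtain ⟨M', hM', hag⟩ := Good.extend hE hW' hM
    refine ⟨M', hM', fun w hw => ?_⟩
    rw [LinearMap.sub_apply, hag w hw, sub_self]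
  act := shE
  act_zero p := by
    refine Prod.ext (Prod.ext rfl (Prod.ext ?_ rfl)) (Prod.ext rfl (Prod.ext ?_ rfl))
    · exact add_zero _
    · exact add_zero _
  act_add M M' p := by
    refine Prod.ext (Prod.ext rfl (Prod.ext ?_ rfl)) (Prod.ext rfl (Prod.ext ?_ rfl))
    · show p.1.2.1 + (M + M') p.1.1 = p.1.2.1 + M' p.1.1 + M p.1.1
      rw [LinearMap.add_apply]
      abel
    · show p.2.2.1 + (M + M') p.2.1 = p.2.2.1 + M' p.2.1 + M p.2.1
      rw [LinearMap.add_apply]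
      abel
  lv := sp
  lv_act M p := sp_sh2 M p
  fix M p hM := by
    refine Prod.ext (Prod.ext rfl (Prod.ext ?_ rfl)) (Prod.ext rfl (Prod.ext ?_ rfl))
    · show p.1.2.1 + M p.1.1 = p.1.2.1
      rw [hM _ (fst_mem_sp p), add_zero]
    · show p.2.2.1 + M p.2.1 = p.2.2.1
      rw [hM _ (snd_mem_sp p), add_zero]
  faithful M p hM := by
    have h1 : p.1.2.1 + M p.1.1 = p.1.2.1 := congrArg (fun q => q.1.2.1) hM
    have h2 : p.2.2.1 + M p.2.1 = p.2.2.1 := congrArg (fun q => q.2.2.1) hM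
    have h3 : sp p ≤ LinearMap.ker M := by
      unfold sp
      rw [Submodule.span_le]
      rintro z (rfl | rfl)
      · exact add_eq_left.1 h1
      · exact add_eq_left.1 h2
    exact fun w hw => h3 hw
  c := 2
  size_lv p := finrank_pair _ _
  G b := (GG x y ψ γ h (bb b)).Adj
  G_inj := hinj
  adj b b' p q M hM := by
    have hM' : Good n x ψ (bb b + bb b') (sp p ⊔ sp q) M := hM
    show (p ≠ q ∧ ∃ l, co (FF x y ψ γ h (bb b)) l p = co (FF x y ψ γ h (bb b)) l q) ↔
      (sh2 M p ≠ sh2 M q ∧ ∃ l, co (FF x y ψ γ h (bb b')) l (sh2 M p) =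
        co (FF x y ψ γ h (bb b')) l (sh2 M q))
    refine and_congr ?_ (exists_congr fun l => ?_)
    · exact not_congr ⟨fun h' => by rw [h'], fun h' => sh2_inj M h'⟩
    · rw [co_sh2 hn hM' _ ((le_sup_left : sp p ≤ sp p ⊔ sp q) (fst_mem_sp p)),
        co_sh2 hn hM' _ ((le_sup_right : sp q ≤ sp p ⊔ sp q) (fst_mem_sp q))]
      exact ⟨fun h' => by rw [h'], fun h' => sh_inj M h'⟩

theorem lsFam_moving {n : ℕ} (hn : 0 < n) {x y : S → Fin a → ZMod 2} {ψ : S → Fin r → ZMod 2}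
    (γ : Γ) (hE : Expands n x ψ) (h : (Fin a → ZMod 2) → (Fin a → ZMod 2) → Γ)
    (bb : Bool → S → ZMod 2)
    (hinj : Function.Injective fun b => (GG x y ψ γ h (bb b)).Adj) (hr : 3 * n < r) (ha : n ≤ a)
    {s0 : ℕ} (hs : s0 + 2 ≤ n) (W : Submodule (ZMod 2) (Fin a → ZMod 2))
    (hW : finrank (ZMod 2) W ≤ s0) :
    ∃ (u : QQ a r Γ × QQ a r Γ) (M : (Fin a → ZMod 2) →ₗ[ZMod 2] (Fin r → ZMod 2)),
      M ∈ (lsFam hn γ hE h bb hinj).D (W ⊔ sp u) ∧ M ∈ (lsFam hn γ hE h bb hinj).N W ∧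
      (lsFam hn γ hE h bb hinj).act M u ≠ u := by
  obtain ⟨u, M, hM, hM0, hMu⟩ := exists_moving hE hr W (by omega) ha
  refine ⟨((u, (0, 0)), (0, (0, 0))), M, hM, hM0, ?_⟩
  intro h'
  have h4 : (0 : Fin r → ZMod 2) + M u = 0 := congrArg (fun q => q.1.2.1) h'
  rw [zero_add] at h4
  exact hMu h4

end

theorem numeric3 (k : ℕ) (hk : 1 ≤ k) : 25500 * k + 153 ≤ 60000 * (k * k) ∧
    34000 * (k * k) + (25500 * k + 153) ≤ 60000 * (k * k) ∧
    3 * (100 * k) ≤ 50 * k * (12 * (100 * k)) := by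
  obtain ⟨q, hq⟩ : ∃ q, q = k * k := ⟨_, rfl⟩
  have h1 : k ≤ k * k := Nat.le_mul_self k
  have h2 : 50 * k * (12 * (100 * k)) = 60000 * (k * k) := by ring
  rw [h2]
  omega

/-- The main theorem for Latin square graphs. -/
theorem ls_main (k : ℕ) (hk : 1 ≤ k) :
    ∃ (Q : Type) (_ : Fintype Q) (L L' : Q → Q → Q), IsLatinSquare L ∧ IsLatinSquare L' ∧
      2 ^ k ≤ Fintype.card Q ∧ Fintype.card Q ≤ 2 ^ (3625 * k) ∧
      IsEmpty (latinGraph L ≃g latinGraph L') ∧
      ∀ X Y : SimpleGraph (Q × Q), (X = latinGraph L ∨ X = latinGraph L') →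
        (Y = latinGraph L ∨ Y = latinGraph L') →
        ∀ j : ℕ, 1 ≤ j → j ≤ k →
          Indist 2 j X.Adj [] Y.Adj [] ∧
          ∀ sel : (Q × Q → Q × Q → Prop) → List (Q × Q) → Set (Q × Q), IsSelector 2 j sel →
            ∀ (v : List (Q × Q)) (E : Finset (List (Q × Q))), IsLeaf sel X.Adj v →
              Explores 2 j sel X.Adj v Y.Adj E →
              Fintype.card Q ^ Nat.log 2 (Fintype.card Q) ≤ E.card ^ 400 := by
  obtain ⟨n, hn⟩ : ∃ n : ℕ, n = 100 * k := ⟨_, rfl⟩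
  obtain ⟨r, hr⟩ : ∃ r : ℕ, r = 12 * n := ⟨_, rfl⟩
  obtain ⟨a, ha⟩ : ∃ a : ℕ, a = 24 * n + 20 := ⟨_, rfl⟩
  obtain ⟨hm2, hA⟩ := numeric2 k n a r hk hn hr ha
  have hS : Fintype.card (Fin (4 * (a * r))) = 4 * (a * r) := Fintype.card_fin _
  obtain ⟨x, ψ, hE, hrig⟩ := exists_system (a := a) (r := r) (S := Fin (4 * (a * r))) n
    (by omega) (by omega) (by omega) hS hm2
  have hΓ : Fintype.card (Fin 5 → ZMod 2) = 32 := by
    rw [Fintype.card_fun, ZMod.card, Fintype.card_fin]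
    norm_num
  have hAc : Fintype.card (Fin a → ZMod 2) = 2 ^ a := by
    rw [Fintype.card_fun, ZMod.card, Fintype.card_fin]
  have hQc : Fintype.card (QQ a r (Fin 5 → ZMod 2)) = 2 ^ (a + r + 5) := by
    rw [Fintype.card_prod, Fintype.card_prod, hΓ, hAc, Fintype.card_fun, ZMod.card,
      Fintype.card_fin, pow_add, pow_add, mul_assoc]
    norm_num
  have hQ5 : 5 ≤ Fintype.card (QQ a r (Fin 5 → ZMod 2)) := by
    rw [hQc]
    have h1 : a + r + 5 < 2 ^ (a + r + 5) := Nat.lt_two_pow_self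
    omega
  have hK : numData (Fintype.card (QQ a r (Fin 5 → ZMod 2))) 32 <
      2 ^ (Fintype.card (Fin a → ZMod 2) * Fintype.card (Fin a → ZMod 2)) := by
    rw [hQc, hAc]
    have h1 := numeric (r + 5) 0
    have h2 : 2 * (r + 5) + 10 + 0 = a := by omega
    rw [h2, ← pow_add] at h1
    exact h1
  have hy0 : Fintype.card (Fin (4 * (a * r))) ≤ Fintype.card (Fin a → ZMod 2) := by
    rw [hS, hAc]
    omega
  obtain ⟨y⟩ := Function.Embedding.nonempty_of_card_le hy0
  obtain ⟨γ, hγ⟩ : ∃ γ : Fin 5 → ZMod 2, γ ≠ 0 :=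
    ⟨fun _ => 1, fun h => one_ne_zero (congrFun h 0)⟩
  have har : r ≤ a * r := Nat.le_mul_of_pos_left r (by omega)
  obtain ⟨bb, hbb⟩ := exists_rhs (Γ := Fin 5 → ZMod 2) x ψ hΓ (by
    rw [hS]
    omega)
  obtain ⟨h, hgood⟩ := exists_h (y := y) (γ := γ) y.injective hrig (by omega) hγ hΓ hK
    (by rw [hS, hAc]; exact hA) bb
  obtain ⟨τ, hiso⟩ := exists_nonIso hΓ hQ5 hbb hgood
  let b2 : Bool → Fin 5 → ZMod 2 := fun b => if b then τ else 0
  have hinj : Function.Injective fun b => (GG x y ψ γ h (bb (b2 b))).Adj := by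
    intro b b' hbb'
    have h1 : GG x y ψ γ h (bb (b2 b)) = GG x y ψ γ h (bb (b2 b')) := SimpleGraph.ext hbb'
    cases b <;> cases b'
    · rfl
    · exfalso
      have h2 : GG x y ψ γ h (bb 0) = GG x y ψ γ h (bb τ) := h1
      rw [← h2] at hiso
      exact hiso.false (RelIso.refl _)
    · exfalso
      have h2 : GG x y ψ γ h (bb τ) = GG x y ψ γ h (bb 0) := h1
      rw [h2] at hiso
      exact hiso.false (RelIso.refl _)
    · rfl
  have hn0 : 0 < n := by omega
  let F := lsFam (y := y) hn0 γ hE h (fun b => bb (b2 b)) hinj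
  have hfinX : Finite ((Fin a → ZMod 2) →ₗ[ZMod 2] (Fin r → ZMod 2)) :=
    Module.finite_of_finite (ZMod 2)
  have : Fintype ((Fin a → ZMod 2) →ₗ[ZMod 2] (Fin r → ZMod 2)) := Fintype.ofFinite _
  have hX : ∀ (K : Type) [Field K], ((2 : ℕ) : K) ≠ 0 →
      (Fintype.card ((Fin a → ZMod 2) →ₗ[ZMod 2] (Fin r → ZMod 2)) : K) ≠ 0 := by
    intro K _ h2
    rw [card_hom, Nat.cast_pow]
    exact pow_ne_zero _ h2
  refine ⟨QQ a r (Fin 5 → ZMod 2), inferInstance,
    Pool.Agent.W185.IR.op (FF x y ψ γ h (bb 0)), Pool.Agent.W185.IR.op (FF x y ψ γ h (bb τ)),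
    Pool.Agent.W185.IR.op_isLatin _, Pool.Agent.W185.IR.op_isLatin _, ?_, ?_, ?_, ?_⟩
  · rw [hQc]
    exact Nat.pow_le_pow_right (by norm_num) (by omega)
  · rw [hQc]
    exact Nat.pow_le_pow_right (by norm_num) (by omega)
  · rw [Pool.Agent.W185.IR.latinGraph_eq, Pool.Agent.W185.IR.latinGraph_eq]
    exact hiso
  · intro X Y hXX hYY j hj1 hjk
    have hX' : ∃ β1 : Bool, X = GG x y ψ γ h (bb (b2 β1)) := by
      rcases hXX with hX | hX
      · exact ⟨false, hX.trans (Pool.Agent.W185.IR.latinGraph_eq _)⟩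
      · exact ⟨true, hX.trans (Pool.Agent.W185.IR.latinGraph_eq _)⟩
    have hY' : ∃ β2 : Bool, Y = GG x y ψ γ h (bb (b2 β2)) := by
      rcases hYY with hY | hY
      · exact ⟨false, hY.trans (Pool.Agent.W185.IR.latinGraph_eq _)⟩
      · exact ⟨true, hY.trans (Pool.Agent.W185.IR.latinGraph_eq _)⟩
    obtain ⟨β1, rfl⟩ := hX'
    obtain ⟨β2, rfl⟩ := hY'
    have hs : 92 * k + 4 * (F.c * j) ≤ F.K := by
      show 92 * k + 4 * (2 * j) ≤ n
      omega
    constructor
    · obtain ⟨M, hM⟩ := F.bot_sol β1 β2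
      exact F.indist (p := 2) (k := j) hX hs (v := []) (M := M) (by
        show F.size ⊥ ≤ 92 * k
        rw [F.size_bot]
        exact Nat.zero_le _) hM
    intro sel hsel v E hleaf hex
    have h1 := F.explored (p := 2) (k := j) hX hs hj1 hsel
      (fun W hW => lsFam_moving hn0 γ hE h _ hinj (by omega) (by omega) (s0 := 92 * k)
        (by omega) W hW) (50 * k) (by
        show 50 * k + 2 ≤ 92 * k
        omega) β1 β2 (2 ^ (50 * k * r - 3 * n)) (by
        intro W hW1 hW2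
        have hW1' : 50 * k ≤ finrank (ZMod 2) W := hW1
        have hW2' : finrank (ZMod 2) W ≤ 92 * k := hW2
        obtain ⟨𝓜, hg, hsep, hcard⟩ := many_good hE (bb (b2 β1) + bb (b2 β2)) W (by omega)
        refine ⟨𝓜, hg, ?_, ?_⟩
        · intro M hM M' hM' hMM
          refine hsep M hM M' hM' fun w hw => ?_
          have := hMM w hw
          rw [LinearMap.sub_apply] at this
          exact sub_eq_zero.1 this
        · have h2 : 2 ^ (50 * k * r) ≤ 𝓜.card * 2 ^ (3 * n) :=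
            (Nat.pow_le_pow_right (by norm_num) (Nat.mul_le_mul_right _ hW1')).trans hcard
          have h3 : 50 * k * r = (50 * k * r - 3 * n) + 3 * n := by
            have : 3 * n ≤ 50 * k * r := by
              rw [hr, hn]
              exact (numeric3 k hk).2.2
            omega
          rw [h3, pow_add] at h2
          exact Nat.le_of_mul_le_mul_right h2 (by positivity)) hleaf hex
    have h2 := card_aut (y := y) (γ := γ) (b := bb (b2 β2)) (h := h) hrig hQ5
      (hgood (b2 β2) (b2 β2))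
    rw [hQc, hΓ] at h2
    have h2' : Nat.card {α : QQ a r (Fin 5 → ZMod 2) × QQ a r (Fin 5 → ZMod 2) ≃
        QQ a r (Fin 5 → ZMod 2) × QQ a r (Fin 5 → ZMod 2) //
        ∀ x1 y1, F.G β2 (α x1) (α y1) ↔ F.G β2 x1 y1} ≤
        Nat.card (GG x y ψ γ h (bb (b2 β2)) ≃g GG x y ψ γ h (bb (b2 β2))) := by
      have hfin : Finite (GG x y ψ γ h (bb (b2 β2)) ≃g GG x y ψ γ h (bb (b2 β2))) := by
        refine Finite.of_injective (fun e => (e : QQ a r (Fin 5 → ZMod 2) ×
          QQ a r (Fin 5 → ZMod 2) → QQ a r (Fin 5 → ZMod 2) × QQ a r (Fin 5 → ZMod 2))) ?_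
        exact DFunLike.coe_injective
      refine Nat.card_le_card_of_injective (fun α => ⟨α.1, fun {x1 y1} => α.2 x1 y1⟩) ?_
      intro α α' hαα
      refine Subtype.ext (Equiv.ext fun z => ?_)
      exact congrArg (fun e : GG x y ψ γ h (bb (b2 β2)) ≃g GG x y ψ γ h (bb (b2 β2)) => e z) hαα
    have h3 : 6 * ((2 ^ (a + r + 5)) ^ 2 * 32 ^ (r + a)) ≤ 2 ^ (7 * (a + r) + 13) := by
      have e1 : (32 : ℕ) = 2 ^ 5 := by norm_num
      rw [e1, ← pow_mul, ← pow_mul, ← pow_add]
      calc 6 * 2 ^ ((a + r + 5) * 2 + 5 * (r + a)) ≤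
          2 ^ 3 * 2 ^ ((a + r + 5) * 2 + 5 * (r + a)) := Nat.mul_le_mul_right _ (by norm_num)
        _ = 2 ^ (7 * (a + r) + 13) := by
          rw [← pow_add]
          congr 1
          ring
    have h4 : 2 ^ (50 * k * r - 3 * n) ≤ 2 ^ (7 * (a + r) + 13) * E.card :=
      h1.trans (Nat.mul_le_mul_right _ (h2'.trans (h2.trans h3)))
    have h5 : 50 * k * r = 60000 * (k * k) := by
      rw [hr, hn]
      ring
    have h6 : 7 * (a + r) + 13 = 25200 * k + 153 := by
      omega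
    have hn3 : 3 * n = 300 * k := by omega
    have h7 : 2 ^ (34000 * (k * k)) ≤ E.card := by
      obtain ⟨q, hq⟩ : ∃ q, 50 * k * r - 3 * n = 7 * (a + r) + 13 + q := by
        refine Nat.exists_eq_add_of_le ?_
        rw [h5, h6, hn3]
        have := (numeric3 k hk).1
        omega
      have hq2 : 34000 * (k * k) ≤ q := by
        rw [h5, h6, hn3] at hq
        have := (numeric3 k hk).2.1
        omega
      rw [hq, pow_add] at h4
      have e2 := Nat.le_of_mul_le_mul_left h4 (by positivity)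
      exact le_trans (Nat.pow_le_pow_right (by norm_num) hq2) e2
    rw [hQc, Nat.log_pow (by norm_num), ← pow_mul]
    calc 2 ^ ((a + r + 5) * (a + r + 5)) ≤ 2 ^ (34000 * (k * k) * 400) := by
          refine Nat.pow_le_pow_right (by norm_num) ?_
          have e3 : a + r + 5 ≤ 3625 * k := by omega
          calc (a + r + 5) * (a + r + 5) ≤ 3625 * k * (3625 * k) := Nat.mul_le_mul e3 e3
            _ = 13140625 * (k * k) := by ring
            _ ≤ 13600000 * (k * k) := Nat.mul_le_mul_right _ (by norm_num)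
            _ = _ := by ring
      _ = (2 ^ (34000 * (k * k))) ^ 400 := pow_mul _ _ _
      _ ≤ E.card ^ 400 := Nat.pow_le_pow_left h7 _

end Pool.Agent.Y598.IM
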