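import Pool.Agent.Y598.IM.LS

/-!
# Individualization-refinement with the invertible-map test on Latin square graphs

There is a constant `C` such that for every `k ≥ 1` there are two Latin squares of the same order
`n`, `2 ^ k ≤ n ≤ 2 ^ (C k)`, whose Latin square graphs `X`, `X'` are not isomorphic, such that the
individualization-refinement method with the `j`-dimensional invertible-map test over all fields of
characteristic different from `2` as refinement, for any `j ≤ k`, and with any cell selector which
is invariant for this test, has to visit `n ^ (log n / C)` nodes, although it is allowed to prune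
with all invariants of the test and with all automorphisms: this is so for the comparison of `X`
with `X'`, of `X'` with `X`, and for the search in the tree of `X` alone (canonical labelling,
automorphisms). Moreover the test alone does not distinguish `X` and `X'`.

Proof idea. The Latin squares are those of `MP_f1a348_lc.IRLatinSquares`: tables of quasigroups on
`A × C × Γ`, `A = F_2^a`, `C = F_2^r`, with product
`(u, c, g) (v, c', g') = (u + v, c + c', g + g' + h(u, v) + ∑_s [u = x_s, v = y_s] (ψ_s(c) + b_s) γ)`.
Linear maps `M : A → C` with `ψ_s(M x_s) = b_s + b'_s` move the square with right hand sides `b` to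
the one with `b'`; on subspaces of small dimension there are many consistent local solutions.
The group `X` of all linear maps `M` is a `2`-group acting on the cells; over a field of
characteristic different from `2` the projections `e_W` to the invariants of the subgroups of the
maps which vanish on `W` give a decomposition of the space of functions on the tuples, and the local
solutions, which on each level differ by elements of the group of homogeneous local solutions,
can be glued to one invertible matrix that commutes with all class matrices (as for tournaments
in `MP_128e7d_lc.TournamentInvertibleMaps`). The new point is that this works also after the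
individualization of vertices, so that the nodes of the search tree obtained from local
solutions look alike for the invertible-map test.
-/

set_option autoImplicit false

namespace Pool.Agent.Y598.IM.LatinThm

open Pool.Agent.W185.LSQ Pool.Agent.Y598.IM

theorem result :
    (∀ (V : Type) [Fintype V] (p j : ℕ), 1 ≤ j →
      ∃ sel : (V → V → Prop) → List V → Set V, IsSelector p j sel) ∧
    (∀ (V : Type) [Fintype V] (p j : ℕ), 1 ≤ j → ∀ sel : (V → V → Prop) → List V → Set V,
      IsSelector p j sel → ∀ A : V → V → Prop, ∃ v, IsLeaf sel A v) ∧
    ∃ C : ℕ, ∀ k : ℕ, 1 ≤ k →
      ∃ (Q : Type) (_ : Fintype Q) (L L' : Q → Q → Q), IsLatinSquare L ∧ IsLatinSquare L' ∧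
        2 ^ k ≤ Fintype.card Q ∧ Fintype.card Q ≤ 2 ^ (C * k) ∧
        IsEmpty (latinGraph L ≃g latinGraph L') ∧
        ∀ X Y : SimpleGraph (Q × Q), (X = latinGraph L ∨ X = latinGraph L') →
          (Y = latinGraph L ∨ Y = latinGraph L') →
          ∀ j : ℕ, 1 ≤ j → j ≤ k →
            Indist 2 j X.Adj [] Y.Adj [] ∧
            ∀ sel : (Q × Q → Q × Q → Prop) → List (Q × Q) → Set (Q × Q), IsSelector 2 j sel →
              ∀ (v : List (Q × Q)) (E : Finset (List (Q × Q))), IsLeaf sel X.Adj v →
                Explores 2 j sel X.Adj v Y.Adj E →
                Fintype.card Q ^ Nat.log 2 (Fintype.card Q) ≤ E.card ^ C := by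
  refine ⟨fun V _ p j hj => exists_isSelector hj,
    fun V _ p j hj sel hsel A => exists_leaf hj hsel A, 3625, fun k hk => ?_⟩
  obtain ⟨Q, iQ, L, L', h1, h2, h3, h4, h5, h6⟩ := ls_main k hk
  refine ⟨Q, iQ, L, L', h1, h2, h3, h4, h5, ?_⟩
  intro X Y hX hY j hj hjk
  refine ⟨(h6 X Y hX hY j hj hjk).1, ?_⟩
  intro sel hsel v E hv hE
  have h7 := (h6 X Y hX hY j hj hjk).2 sel hsel v E hv hE
  refine h7.trans ?_
  rcases Nat.eq_zero_or_pos E.card with h0 | h0
  · rw [h0, zero_pow (by norm_num), zero_pow (by norm_num)]
  · exact Nat.pow_le_pow_right h0 (by norm_num)

end Pool.Agent.Y598.IM.LatinThm
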